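import Mathlib
import Pool.Agent.L7h51.CvxSq.RealCase
import Pool.Agent.Y509.CCyc.Norm

/-!
# Every separable Banach space carries a convex-cyclic operator whose square is not convex-cyclic

Full positive answer to Q1, for real and for complex scalars, in finite and in infinite dimensions.

On every nonzero separable Banach space `X` there are a cyclic contraction `S` and a functional
`f ≠ 0` with `f ∘ S = 0`.  For real scalars `T = -100 + S` and for complex scalars `T = 10 i + S` is
convex-cyclic: a functional whose real part is bounded above along the orbit of a cyclic vector of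
`S` vanishes.  But `f ∘ T ^ 2 = 100 ^ 2 f`, respectively `f ∘ T ^ 2 = -100 f`, so `T ^ 2` is not
convex-cyclic.
-/

set_option autoImplicit false

namespace Pool.Agent.Results.MP_8292e8_an.SquareNotConvexCyclic

open ContinuousLinearMap Pool.Agent.L7h51.CvxSq

/-- The bounded operator `T` on the real normed space `X` is convex-cyclic: for some vector `x` the
convex hull of the orbit `x, T x, T² x, …` is dense in `X`. -/
def ConvexCyclicReal {X : Type*} [NormedAddCommGroup X] [NormedSpace ℝ X] (T : X →L[ℝ] X) : Prop :=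
  ∃ x : X, Dense (convexHull ℝ (Set.range fun n : ℕ => (T ^ n) x))

/-- The bounded operator `T` on the complex normed space `X` is convex-cyclic: for some vector `x`
the convex hull (real convex combinations) of the orbit `x, T x, T² x, …` is dense in `X`. -/
def ConvexCyclicComplex {X : Type*} [NormedAddCommGroup X] [NormedSpace ℂ X] (T : X →L[ℂ] X) :
    Prop :=
  ∃ x : X, Dense (convexHull ℝ (Set.range fun n : ℕ => (T ^ n) x))

lemma real_case (X : Type*) [NormedAddCommGroup X] [NormedSpace ℝ X] [CompleteSpace X]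
    [TopologicalSpace.SeparableSpace X] [Nontrivial X] :
    ∃ S : X →L[ℝ] X, ConvexCyclicReal S ∧ ¬ ConvexCyclicReal (S ^ 2) := by
  obtain ⟨S, x, f, hS, hx, hf0, hf⟩ := exists_cyclic_contraction ℝ X
  refine ⟨TR S, ⟨x, cc_of_cycR hS x hx⟩, ?_⟩
  rintro ⟨y, hy⟩
  have h1 : ∀ v, f (TR S v) = -100 * f v := by
    intro v
    change f ((-100 : ℝ) • v + S v) = _
    rw [map_add, map_smul, hf, add_zero, smul_eq_mul]
  have h2 : ∀ n : ℕ, f (((TR S ^ 2) ^ n) y) = 10000 ^ n * f y := by
    intro n
    induction n with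
    | zero => simp
    | succ n ih =>
      rw [pow_succ' (TR S ^ 2), mul_apply_eq_comp, pow_two (TR S), mul_apply_eq_comp, h1, h1,
        ← pow_two (TR S), ih]
      ring
  obtain ⟨v, hv⟩ : ∃ v, f v ≠ 0 := by
    by_contra hcon
    push Not at hcon
    exact hf0 (ContinuousLinearMap.ext fun v => by rw [hcon v]; rfl)
  -- a closed half space contains the orbit
  have key : ∀ g : X →L[ℝ] ℝ, (∀ n : ℕ, 0 ≤ g (((TR S ^ 2) ^ n) y)) → ∀ v, 0 ≤ g v := by
    intro g hg v
    have h3 : convexHull ℝ (Set.range fun n : ℕ => ((TR S ^ 2) ^ n) y) ⊆ {v | 0 ≤ g v} := by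
      refine convexHull_min ?_ ?_
      · rintro _ ⟨n, rfl⟩
        exact hg n
      · intro a ha b hb s t hs ht _
        rw [Set.mem_setOf_eq] at ha hb ⊢
        rw [map_add, map_smul, map_smul, smul_eq_mul, smul_eq_mul]
        positivity
    have h4 : IsClosed {v : X | 0 ≤ g v} := isClosed_le continuous_const g.continuous
    exact closure_minimal h3 h4 (hy v)
  rcases le_total 0 (f y) with h | h
  · have h5 := key f (fun n => by rw [h2]; positivity)
    have h6 := h5 v
    have h7 := h5 (-v)
    rw [map_neg] at h7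
    exact hv (le_antisymm (by linarith) h6)
  · have h5 := key (-f) (fun n => by
      rw [neg_apply, h2]
      have : 0 ≤ (10000 : ℝ) ^ n := by positivity
      nlinarith)
    have h6 := h5 v
    have h7 := h5 (-v)
    rw [neg_apply] at h6 h7
    rw [map_neg] at h7
    exact hv (le_antisymm (by linarith) (by linarith))

lemma complex_case (X : Type*) [NormedAddCommGroup X] [NormedSpace ℂ X] [CompleteSpace X]
    [TopologicalSpace.SeparableSpace X] [Nontrivial X] :
    ∃ S : X →L[ℂ] X, ConvexCyclicComplex S ∧ ¬ ConvexCyclicComplex (S ^ 2) := by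
  obtain ⟨S, x, f, hS, hx, hf0, hf⟩ := exists_cyclic_contraction ℂ X
  refine ⟨Pool.Agent.Y509.CCyc.TT S, ⟨x, Pool.Agent.Y509.CCyc.cc_of_cyc hS x hx⟩, ?_⟩
  rintro ⟨y, hy⟩
  set T := Pool.Agent.Y509.CCyc.TT S with hT
  have h1 : ∀ v, f (T v) = (10 * Complex.I) * f v := by
    intro v
    change f ((10 * Complex.I) • v + S v) = _
    rw [map_add, map_smul, hf, add_zero, smul_eq_mul]
  have h2 : ∀ n : ℕ, f (((T ^ 2) ^ n) y) = (((-100 : ℝ) ^ n : ℝ) : ℂ) * f y := by
    intro n
    induction n with
    | zero => simp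
    | succ n ih =>
      rw [pow_succ' (T ^ 2), mul_apply_eq_comp, pow_two T, mul_apply_eq_comp, h1, h1,
        ← pow_two T, ih]
      have hI : Complex.I * Complex.I = -1 := Complex.I_mul_I
      push_cast
      rw [pow_succ]
      linear_combination (100 * (-100 : ℂ) ^ n * f y) * hI
  obtain ⟨v, hv⟩ : ∃ v, f v ≠ 0 := by
    by_contra hcon
    push Not at hcon
    exact hf0 (ContinuousLinearMap.ext fun v => by rw [hcon v]; rfl)
  -- `c` annihilates the real line spanned by `f y`
  obtain ⟨c, hc0, hc⟩ : ∃ c : ℂ, c ≠ 0 ∧ (c * f y).re = 0 := by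
    by_cases h : f y = 0
    · exact ⟨1, one_ne_zero, by rw [h]; simp⟩
    · refine ⟨Complex.I * (starRingEnd ℂ) (f y), ?_, ?_⟩
      · exact mul_ne_zero Complex.I_ne_zero ((map_ne_zero _).2 h)
      · rw [mul_assoc, mul_comm ((starRingEnd ℂ) (f y)), Complex.mul_conj]
        simp
  have h3 : convexHull ℝ (Set.range fun n : ℕ => ((T ^ 2) ^ n) y) ⊆ {v | (c * f v).re = 0} := by
    refine convexHull_min ?_ ?_
    · rintro _ ⟨n, rfl⟩
      rw [Set.mem_setOf_eq, h2, mul_left_comm, Complex.re_ofReal_mul, hc, mul_zero]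
    · intro a ha b hb s t _ _ _
      rw [Set.mem_setOf_eq] at ha hb ⊢
      have e : f (s • a + t • b) = (s : ℂ) * f a + (t : ℂ) * f b := by
        have e1 : s • a + t • b = (s : ℂ) • a + (t : ℂ) • b := rfl
        rw [e1, map_add, map_smul, map_smul, smul_eq_mul, smul_eq_mul]
      rw [e, mul_add, mul_left_comm, mul_left_comm c (t : ℂ), Complex.add_re,
        Complex.re_ofReal_mul, Complex.re_ofReal_mul, ha, hb]
      simp
  have h4 : IsClosed {v : X | (c * f v).re = 0} :=
    isClosed_eq (Complex.continuous_re.comp (continuous_const.mul f.continuous)) continuous_const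
  have h5 : ∀ v, (c * f v).re = 0 := fun v => closure_minimal h3 h4 (hy v)
  have h6 := h5 ((c * f v)⁻¹ • v)
  rw [map_smul, smul_eq_mul, mul_left_comm, inv_mul_cancel₀ (mul_ne_zero hc0 hv)] at h6
  simp at h6

/-- **Every separable Banach space carries a convex-cyclic operator whose square is not
convex-cyclic**: on every nonzero separable Banach space, real or complex, of finite or infinite
dimension, there is a bounded operator `S` which is convex-cyclic and for which `S ^ 2` is not
convex-cyclic. -/
theorem result :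
    (∀ (X : Type*) [NormedAddCommGroup X] [NormedSpace ℝ X] [CompleteSpace X]
      [TopologicalSpace.SeparableSpace X] [Nontrivial X],
      ∃ S : X →L[ℝ] X, ConvexCyclicReal S ∧ ¬ ConvexCyclicReal (S ^ 2)) ∧
    (∀ (X : Type*) [NormedAddCommGroup X] [NormedSpace ℂ X] [CompleteSpace X]
      [TopologicalSpace.SeparableSpace X] [Nontrivial X],
      ∃ S : X →L[ℂ] X, ConvexCyclicComplex S ∧ ¬ ConvexCyclicComplex (S ^ 2)) :=
  ⟨fun X _ _ _ _ _ => real_case X, fun X _ _ _ _ _ => complex_case X⟩

end Pool.Agent.Results.MP_8292e8_an.SquareNotConvexCyclic
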